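import Pool.Agent.H947R2.TP.Stubs

/-!
# C7 (MP_c4753b_co): the estimate for lattice tilings
-/

open MeasureTheory Filter Topology Set
open scoped ENNReal

namespace H947TP

theorem C7 (h3 : St_C3) (h5 : St_C5) (h6 : St_C6) : St_C7 := by
  intro D n μ b δ L hn hμ hcnt hδ hδ' hL
  obtain ⟨σ, hσ⟩ := h3 D L hL
  have h5' := h5 D n μ b σ (by omega) hμ hcnt
  have hterm : ∀ k, Ex L k (Phi b δ k) ≤
      (⨆ j : {j : Fin n // j ≠ b k}, (before b σ k j : ℝ) / cnt b j) / 2
        + Real.log (n - 1) / (4 * μ) + D * δ := fun k =>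
    h6 D n μ b δ L σ k hn hμ hcnt hδ hδ' hL (hσ k).1 (hσ k).2
  unfold SS
  have hsum := Finset.sum_le_sum (fun k (_ : k ∈ (Finset.univ : Finset (Fin D))) => hterm k)
  rw [Finset.sum_add_distrib, Finset.sum_add_distrib, ← Finset.sum_div] at hsum
  simp only [Finset.sum_const, Finset.card_univ, Fintype.card_fin, nsmul_eq_mul] at hsum
  linarith

end H947TP
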